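import Pool.Agent.HIK.Stmts
import Pool.Agent.Helper83_MTL.Dec

/-!
# DEK: the decomposition group at an algebraic point is mapped onto the stabiliser
-/

set_option autoImplicit false

namespace Pool.Agent.HIK.H45

open Polynomial Pool.Agent.MTL Pool.Agent.HIK

/-- `π` is evaluation at `a` on polynomials -/
theorem pi_poly {a : QB} {π : BB →+* QB} (hπ : π (algebraMap ℚ[X] BB X) = a)
    (f : ℚ[X]) : π (algebraMap ℚ[X] BB f) = aeval a f := by
  have h : π.comp (algebraMap ℚ[X] BB) = (aeval a : ℚ[X] →ₐ[ℚ] QB).toRingHom := by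
    refine Polynomial.ringHom_ext' (Subsingleton.elim _ _) ?_
    simp [hπ]
  exact RingHom.congr_fun h f

/-- `π` is surjective -/
theorem pi_surj (π : BB →+* QB) : Function.Surjective π := by
  intro y
  have hint : IsIntegral ℚ y := (AlgebraicClosure.isAlgebraic ℚ).isIntegral.isIntegral y
  obtain ⟨f, hf⟩ : ∃ f : ℚ[X], f = minpoly ℚ y := ⟨_, rfl⟩
  have hmon : f.Monic := by
    rw [hf]
    exact minpoly.monic hint
  -- the polynomial over `BB`
  obtain ⟨F, hF⟩ : ∃ F : BB[X], F = (f.map (algebraMap ℚ ℚ[X])).map (algebraMap ℚ[X] BB) :=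
    ⟨_, rfl⟩
  have hFmon : F.Monic := by
    rw [hF]
    exact (hmon.map _).map _
  -- its roots in `Om`
  have hsplit : (F.map (algebraMap BB Om)).Splits := IsAlgClosed.splits _
  have hroot : ∀ z ∈ (F.map (algebraMap BB Om)).roots, ∃ b : BB, (b : Om) = z := by
    intro z hz
    have h1 : IsIntegral ℚ[X] z := by
      refine ⟨f.map (algebraMap ℚ ℚ[X]), hmon.map _, ?_⟩
      have h2 := (Polynomial.mem_roots'.1 hz).2
      rw [IsRoot, hF, eval_map, eval₂_map] at h2
      exact h2
    exact ⟨⟨z, h1⟩, rfl⟩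
  have hprod : F.map (algebraMap BB Om) =
      ((F.map (algebraMap BB Om)).roots.map fun a => X - C a).prod := by
    exact (Polynomial.Splits.eq_prod_roots_of_monic hsplit (hFmon.map _))
  obtain ⟨s, hs⟩ : ∃ s : Multiset BB, s.map (fun b : BB => (b : Om)) =
      (F.map (algebraMap BB Om)).roots := by
    have hroot' : ∀ z ∈ (F.map (algebraMap BB Om)).roots, z ∈ BB := by
      intro z hz
      obtain ⟨b, rfl⟩ := hroot z hz
      exact b.2
    refine ⟨(F.map (algebraMap BB Om)).roots.pmap (fun z hz => ⟨z, hz⟩) hroot', ?_⟩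
    rw [Multiset.map_pmap, Multiset.pmap_eq_map, Multiset.map_id']
  have h7 : F = (s.map fun b => X - C b).prod := by
    apply Polynomial.map_injective (algebraMap BB Om) Subtype.val_injective
    rw [hprod, ← hs, Polynomial.map_multiset_prod, Multiset.map_map, Multiset.map_map]
    refine congrArg _ (Multiset.map_congr rfl fun b _ => ?_)
    change X - C (b : Om) = Polynomial.map (algebraMap BB Om) (X - C b)
    rw [Polynomial.map_sub, Polynomial.map_X, Polynomial.map_C]
    rfl
  have h5 : F.map π = f.map (algebraMap ℚ QB) := by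
    rw [hF, Polynomial.map_map, Polynomial.map_map]
    exact congrArg (fun φ => f.map φ) (Subsingleton.elim _ _)
  have h6 : eval y (F.map π) = 0 := by
    rw [h5, eval_map, ← aeval_def, hf, minpoly.aeval]
  have h8 : eval y (F.map π) = (s.map fun b => y - π b).prod := by
    rw [h7, Polynomial.map_multiset_prod, Multiset.map_map, eval_multiset_prod, Multiset.map_map]
    refine congrArg _ (Multiset.map_congr rfl fun b _ => ?_)
    simp
  rw [h8, Multiset.prod_eq_zero_iff, Multiset.mem_map] at h6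
  obtain ⟨b, -, hb⟩ := h6
  exact ⟨b, (sub_eq_zero.1 hb).symm⟩

theorem dek : DekStmt := by
  intro a π hπ
  have hsurj := pi_surj π
  refine ⟨hsurj, fun τ hτ => ?_⟩
  let _ : TopologicalSpace BB := ⊥
  have : DiscreteTopology BB := ⟨rfl⟩
  have : ContinuousSMul GT BB := by
    refine ⟨?_⟩
    rw [continuous_prod_of_discrete_right]
    intro b
    rw [continuous_discrete_rng]
    exact fun c => Pool.Agent.MTL.H83.cont b c
  let Q : Ideal BB := RingHom.ker π
  have : Q.IsPrime := RingHom.ker_isPrime π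
  let P : Ideal ℚ[X] := Q.under ℚ[X]
  have : Q.LiesOver P := ⟨rfl⟩
  let e : (BB ⧸ Q) ≃+* QB := RingHom.quotientKerEquivOfSurjective hsurj
  have he : ∀ b : BB, e (Ideal.Quotient.mk Q b) = π b := fun b => rfl
  have hcomm : ∀ r : ℚ[X] ⧸ P, (e.trans (τ.toRingEquiv.trans e.symm))
      (algebraMap (ℚ[X] ⧸ P) (BB ⧸ Q) r) = algebraMap (ℚ[X] ⧸ P) (BB ⧸ Q) r := by
    intro r
    obtain ⟨f, rfl⟩ := Ideal.Quotient.mk_surjective r
    change e.symm (τ (e (Ideal.Quotient.mk Q (algebraMap ℚ[X] BB f)))) =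
      Ideal.Quotient.mk Q (algebraMap ℚ[X] BB f)
    rw [e.symm_apply_eq, he, pi_poly hπ]
    have h1 : τ (aeval a f) = aeval (τ a) f := (Polynomial.aeval_algHom_apply τ a f).symm
    rw [h1, hτ]
  obtain ⟨g, hg⟩ := Ideal.Quotient.stabilizerHom_surjective_of_profinite (G := GT) P Q
    (AlgEquiv.ofRingEquiv (f := e.trans (τ.toRingEquiv.trans e.symm)) hcomm)
  refine ⟨g.1, fun b => ?_⟩
  have h1 := DFunLike.congr_fun hg (Ideal.Quotient.mk Q b)
  have h2 : Ideal.Quotient.mk Q (g.1 • b) = e.symm (τ (e (Ideal.Quotient.mk Q b))) := h1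
  have h3 := congrArg e h2
  rw [e.apply_symm_apply, he, he] at h3
  exact h3

end Pool.Agent.HIK.H45
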